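import Pool.Agent.W620.BM.Stm

/-! BM-CSA, BM-REP (MP_be3542_nt) -/

set_option autoImplicit false

open scoped TensorProduct
open Matrix

namespace Pool.Agent.W52.BM

open Pool.Agent.W620.BM

section

variable {R B K : Type} [CommRing R] [Ring B] [Algebra R B] [IsAzumaya R B]
  [Field K] [Algebra R K]

/-- the endomorphisms given by multiplications -/
noncomputable abbrev EE (K A : Type) [Field K] [Ring A] [Algebra K A] :
    Subalgebra K (Module.End K A) := (AlgHom.mulLeftRight K A).range

theorem EE_mul {A : Type} [Ring A] [Algebra K A] (a b : A) (f : Module.End K A)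
    (hf : ∀ y, f y = a * y * b) : f ∈ EE K A := by
  refine ⟨a ⊗ₜ MulOpposite.op b, ?_⟩
  apply LinearMap.ext
  intro y
  show AlgHom.mulLeftRight K A (a ⊗ₜ MulOpposite.op b) y = f y
  rw [AlgHom.mulLeftRight_apply, hf]; rfl

/-- the base change of an endomorphism of `B` is given by multiplications -/
theorem EE_baseChange (θ : B →ₗ[R] B) : (θ.baseChange K : Module.End K (K ⊗[R] B)) ∈ EE K (K ⊗[R] B) := by
  obtain ⟨t, ht⟩ := (IsAzumaya.bij (R := R) (A := B)).2 θ
  have key : ∀ t : B ⊗[R] Bᵐᵒᵖ, ((AlgHom.mulLeftRight R B t).baseChange K :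
      Module.End K (K ⊗[R] B)) ∈ EE K (K ⊗[R] B) := by
    intro t
    induction t using TensorProduct.induction_on with
    | zero => rw [map_zero, LinearMap.baseChange_zero]; exact Subalgebra.zero_mem _
    | tmul u v =>
      refine EE_mul ((1 : K) ⊗ₜ u) ((1 : K) ⊗ₜ v.unop) _ ?_
      intro y
      induction y using TensorProduct.induction_on with
      | zero => simp
      | tmul a b =>
        rw [LinearMap.baseChange_tmul, AlgHom.mulLeftRight_apply,
          Algebra.TensorProduct.tmul_mul_tmul, Algebra.TensorProduct.tmul_mul_tmul, one_mul,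
          mul_one]
      | add x y hx hy => rw [map_add, hx, hy, mul_add, add_mul]
    | add x y hx hy => rw [map_add, LinearMap.baseChange_add]; exact Subalgebra.add_mem _ hx hy
  rw [← ht]
  exact key t

/-- every endomorphism is given by multiplications -/
theorem EE_top (ψ : Module.End K (K ⊗[R] B)) : ψ ∈ EE K (K ⊗[R] B) := by
  classical
  obtain ⟨n, f, g, -, -, hfg⟩ := Module.Finite.exists_comp_eq_id_of_projective R B
  let b : Fin n → B := fun k => f (Pi.single k 1)
  let θ : Fin n → (B →ₗ[R] B) := fun k => LinearMap.toSpanSingleton R B 1 ∘ₗ LinearMap.proj k ∘ₗ g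
  have hb : ∀ x : B, x = ∑ k, g x k • b k := by
    intro x
    have h1 : f (g x) = x := LinearMap.congr_fun hfg x
    conv_lhs => rw [← h1, pi_eq_sum_univ' (g x)]
    rw [map_sum]
    refine Finset.sum_congr rfl fun k _ => ?_
    rw [map_smul]
  have hψ : ψ = ∑ k, (LinearMap.mulLeft K (ψ (1 ⊗ₜ b k))) * ((θ k).baseChange K) := by
    apply TensorProduct.AlgebraTensorModule.curry_injective
    apply LinearMap.ext_ring
    apply LinearMap.ext
    intro x
    show ψ (1 ⊗ₜ x) = (∑ k, (LinearMap.mulLeft K (ψ (1 ⊗ₜ b k))) * ((θ k).baseChange K)) (1 ⊗ₜ x)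
    rw [LinearMap.sum_apply]
    conv_lhs => rw [hb x, TensorProduct.tmul_sum, map_sum]
    refine Finset.sum_congr rfl fun k _ => ?_
    rw [Module.End.mul_apply, LinearMap.baseChange_tmul, LinearMap.mulLeft_apply]
    have h2 : ((1 : K) ⊗ₜ[R] (θ k x) : K ⊗[R] B) = (algebraMap R K (g x k)) • (1 : K ⊗[R] B) := by
      show (1 : K) ⊗ₜ[R] (g x k • (1 : B)) = _
      rw [TensorProduct.tmul_smul, algebraMap_smul]
      rfl
    have h3 : ((1 : K) ⊗ₜ[R] (g x k • b k) : K ⊗[R] B) =
        (algebraMap R K (g x k)) • ((1 : K) ⊗ₜ[R] b k) := by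
      rw [TensorProduct.tmul_smul, algebraMap_smul]
    rw [h2, h3, map_smul, mul_smul_comm, mul_one]
  rw [hψ]
  exact Subalgebra.sum_mem _ fun k _ => Subalgebra.mul_mem _
    (EE_mul (ψ (1 ⊗ₜ b k)) 1 _ (fun y => by rw [LinearMap.mulLeft_apply, mul_one]))
    (EE_baseChange _)

/-- all elements of `EE` preserve two-sided ideals -/
theorem EE_ideal {A : Type} [Ring A] [Algebra K A] (I : TwoSidedIdeal A) {ψ : Module.End K A}
    (h : ψ ∈ EE K A) {a : A} (ha : a ∈ I) : ψ a ∈ I := by
  obtain ⟨t, rfl⟩ := h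
  show AlgHom.mulLeftRight K A t a ∈ I
  induction t using TensorProduct.induction_on with
  | zero => rw [map_zero]; exact I.zero_mem
  | tmul u v =>
    rw [AlgHom.mulLeftRight_apply]
    exact I.mul_mem_right _ _ (I.mul_mem_left _ _ ha)
  | add x y hx hy => rw [map_add]; exact I.add_mem hx hy

end

theorem s_csa (hret : S_ret) : S_csa := by
  intro R B K _ _ _ _ _ _
  obtain ⟨f, hf⟩ := hret R B
  have hnt : (1 : K ⊗[R] B) ≠ 0 := by
    intro h
    have h1 := congrArg ((TensorProduct.AlgebraTensorModule.rid R K K) ∘ (f.baseChange K)) h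
    simp only [Function.comp_apply, map_zero] at h1
    rw [Algebra.TensorProduct.one_def, LinearMap.baseChange_tmul, hf,
      TensorProduct.AlgebraTensorModule.rid_tmul, one_smul] at h1
    exact one_ne_zero h1
  have : Nontrivial (K ⊗[R] B) := ⟨⟨1, 0, hnt⟩⟩
  refine ⟨⟨?_⟩, ⟨⟨?_⟩⟩, inferInstance⟩
  · intro c hc
    obtain ⟨l, hl⟩ := Module.Projective.exists_dual_eq_one K hnt
    have h1 := EE_top (K := K) (R := R) (B := B) (l.smulRight 1)
    have h2 : ∀ ψ ∈ EE K (K ⊗[R] B), ∀ y, ψ (c * y) = c * ψ y := by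
      rintro ψ ⟨t, rfl⟩ y
      show AlgHom.mulLeftRight K _ t (c * y) = c * AlgHom.mulLeftRight K _ t y
      induction t using TensorProduct.induction_on with
      | zero => simp
      | tmul u v =>
        rw [AlgHom.mulLeftRight_apply, AlgHom.mulLeftRight_apply, ← mul_assoc u c y,
          (Subalgebra.mem_center_iff.1 hc u), ← mul_assoc, ← mul_assoc]
      | add p q hp hq =>
        rw [map_add, LinearMap.add_apply, LinearMap.add_apply, hp, hq, mul_add]
    have h3 := h2 _ h1 1
    rw [LinearMap.smulRight_apply, LinearMap.smulRight_apply, hl, one_smul, mul_one] at h3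
    rw [Algebra.mem_bot]
    exact ⟨l c, by rw [Algebra.algebraMap_eq_smul_one, h3]⟩
  · intro I
    by_cases hI : I = ⊥
    · exact Or.inl hI
    · right
      obtain ⟨i, hi, hi0⟩ : ∃ i ∈ I, i ≠ 0 := by
        by_contra hcon
        push Not at hcon
        apply hI
        rw [eq_bot_iff]
        intro x hx
        rw [hcon x hx]
        exact TwoSidedIdeal.zero_mem _
      obtain ⟨l, hl⟩ := Module.Projective.exists_dual_eq_one K hi0
      rw [eq_top_iff]
      intro a _
      have h1 := EE_ideal I (EE_top (K := K) (R := R) (B := B) (l.smulRight a)) hi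
      rwa [LinearMap.smulRight_apply, hl, one_smul] at h1

theorem s_rep (hret : S_ret) : S_rep := by
  intro R B _ _ _ _ x
  letI := x.toAlgebra
  obtain ⟨h1, h2, h3⟩ := s_csa hret R B ℂ
  obtain ⟨n, hn, ⟨e⟩⟩ := IsSimpleRing.exists_algEquiv_matrix_of_isAlgClosed ℂ (ℂ ⊗[R] B)
  refine ⟨n, Nat.pos_of_ne_zero hn.out,
    (e : (ℂ ⊗[R] B) →+* Mat n).comp (Algebra.TensorProduct.includeRight : B →ₐ[R] ℂ ⊗[R] B).toRingHom,
    ?_, ?_⟩
  · intro r
    show e ((1 : ℂ) ⊗ₜ[R] algebraMap R B r) = _
    have : ((1 : ℂ) ⊗ₜ[R] algebraMap R B r : ℂ ⊗[R] B) = algebraMap ℂ _ (x r) := by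
      rw [Algebra.algebraMap_eq_smul_one, TensorProduct.tmul_smul,
        Algebra.algebraMap_eq_smul_one (x r), ← algebraMap_smul ℂ r]
      rfl
    rw [this]
    exact e.commutes _
  · rw [eq_top_iff]
    intro m _
    obtain ⟨y, rfl⟩ := e.surjective m
    induction y using TensorProduct.induction_on with
    | zero => rw [map_zero]; exact Submodule.zero_mem _
    | tmul z b =>
      have : (z ⊗ₜ[R] b : ℂ ⊗[R] B) = z • ((1 : ℂ) ⊗ₜ[R] b) := by
        rw [TensorProduct.smul_tmul', smul_eq_mul, mul_one]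
      rw [this, map_smul]
      exact Submodule.smul_mem _ _ (Submodule.subset_span ⟨b, rfl⟩)
    | add p q hp hq => rw [map_add]; exact Submodule.add_mem _ (hp trivial) (hq trivial)

end Pool.Agent.W52.BM
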