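import Pool.Agent.W620.BM.Stm

/-! BM-LIFT (MP_be3542_nt) -/

set_option autoImplicit false

open scoped TensorProduct Topology
open Matrix

namespace Pool.Agent.W52.BM

open Pool.Agent.W620.BM

section

variable {R B : Type} [CommRing R] [Ring B] [Algebra R B]

/-- `g` intertwines and has determinant one -/
def Good {n : ℕ} (ρ ρ' : B →+* Mat n) (g : Mat n) : Prop :=
  g.det = 1 ∧ ∀ b, ρ' b * g = g * ρ b

theorem adj_mul {n : ℕ} {g : Mat n} (h : g.det = 1) : g.adjugate * g = 1 := by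
  rw [Matrix.adjugate_mul, h, one_smul]

theorem mul_adj {n : ℕ} {g : Mat n} (h : g.det = 1) : g * g.adjugate = 1 := by
  rw [Matrix.mul_adjugate, h, one_smul]

theorem Good.unique {n : ℕ} {x : R →+* ℂ} {ρ ρ' : B →+* Mat n} (h : IsRep x ρ) {g g' : Mat n}
    (hg : Good ρ ρ' g) (hg' : Good ρ ρ' g') : ∃ z : ℂ, z ^ n = 1 ∧ g' = z • g := by
  set k := g.adjugate * g' with hk
  have hkdet : k.det = 1 := by
    have h1 : g.adjugate.det = 1 := by
      have := congrArg Matrix.det (adj_mul hg.1)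
      rwa [Matrix.det_mul, hg.1, mul_one, Matrix.det_one] at this
    rw [hk, Matrix.det_mul, h1, hg'.1, mul_one]
  have h1 : ∀ b, g.adjugate * ρ' b = ρ b * g.adjugate := by
    intro b
    calc g.adjugate * ρ' b = g.adjugate * (ρ' b * g) * g.adjugate := by
          rw [Matrix.mul_assoc, Matrix.mul_assoc, mul_adj hg.1, Matrix.mul_one]
      _ = (g.adjugate * g) * ρ b * g.adjugate := by rw [hg.2]; simp only [Matrix.mul_assoc]
      _ = _ := by rw [adj_mul hg.1, Matrix.one_mul]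
  have h2 : ∀ b, k * ρ b = ρ b * k := by
    intro b
    rw [hk, Matrix.mul_assoc, ← hg'.2 b, ← Matrix.mul_assoc, h1, Matrix.mul_assoc]
  have h3 : ∀ m : Mat n, k * m = m * k := by
    intro m
    have hm : m ∈ Submodule.span ℂ (Set.range ρ) := by rw [h.span]; trivial
    induction hm using Submodule.span_induction with
    | mem x hx => obtain ⟨b, rfl⟩ := hx; exact h2 b
    | zero => simp
    | add a b _ _ ha hb => rw [mul_add, add_mul, ha, hb]
    | smul c a _ ha => rw [mul_smul_comm, smul_mul_assoc, ha]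
  obtain ⟨z, hz⟩ := Matrix.mem_range_scalar_iff_commute_single'.2 fun i j => (h3 _).symm
  have hz' : k = z • (1 : Mat n) := by
    rw [← hz, Matrix.scalar_apply, Matrix.smul_one_eq_diagonal]
  refine ⟨z, ?_, ?_⟩
  · rw [hz', Matrix.det_smul, Fintype.card_fin, Matrix.det_one, mul_one] at hkdet
    exact hkdet
  · calc g' = (g * g.adjugate) * g' := by rw [mul_adj hg.1, Matrix.one_mul]
      _ = g * k := by rw [Matrix.mul_assoc]
      _ = _ := by rw [hz', mul_smul_comm, Matrix.mul_one]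

theorem Good.smul {n : ℕ} {ρ ρ' : B →+* Mat n} {g : Mat n} (hg : Good ρ ρ' g) {z : ℂ}
    (hz : z ^ n = 1) : Good ρ ρ' (z • g) := by
  refine ⟨by rw [Matrix.det_smul, Fintype.card_fin, hz, hg.1, mul_one], fun b => ?_⟩
  rw [mul_smul_comm, smul_mul_assoc, hg.2 b]

/-- two continuous families over a preconnected set differ by a constant root of unity -/
theorem unique_family {T : Type} [TopologicalSpace T] {n : ℕ} (hn : 0 < n) {x : T → R →+* ℂ}
    {ρ ρ' : T → B →+* Mat n} (hρ : ∀ θ, IsRep (x θ) (ρ θ)) {F : Set T} (hF : IsPreconnected F)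
    {g g' : T → Mat n} (hg : ContinuousOn g F) (hg' : ContinuousOn g' F)
    (h : ∀ θ ∈ F, Good (ρ θ) (ρ' θ) (g θ)) (h' : ∀ θ ∈ F, Good (ρ θ) (ρ' θ) (g' θ)) :
    ∃ z : ℂ, z ^ n = 1 ∧ ∀ θ ∈ F, g' θ = z • g θ := by
  have hn0 : (n : ℂ) ≠ 0 := by exact_mod_cast hn.ne'
  let f : T → ℂ := fun θ => (n : ℂ)⁻¹ * Matrix.trace ((g θ).adjugate * g' θ)
  have hf : ∀ θ ∈ F, ∀ z : ℂ, g' θ = z • g θ → f θ = z := by
    intro θ hθ z hz
    show (n : ℂ)⁻¹ * Matrix.trace ((g θ).adjugate * g' θ) = z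
    rw [hz, mul_smul_comm, adj_mul (h θ hθ).1, Matrix.trace_smul, Matrix.trace_one,
      Fintype.card_fin, smul_eq_mul]
    field_simp
  have hfin : {z : ℂ | z ^ n = 1}.Finite := by
    refine (Polynomial.nthRoots n (1 : ℂ)).toFinset.finite_toSet.subset fun z hz => ?_
    rw [Finset.mem_coe, Multiset.mem_toFinset, Polynomial.mem_nthRoots hn]
    exact hz
  have hfc : ContinuousOn f F := by
    have h1 : ContinuousOn (fun θ => (g θ).adjugate) F := by
      rw [continuousOn_iff_continuous_domRestrict] at hg ⊢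
      exact hg.matrix_adjugate
    have h2 : ContinuousOn (fun θ => (g θ).adjugate * g' θ) F := by
      rw [continuousOn_iff_continuous_domRestrict] at h1 hg' ⊢
      exact h1.matrix_mul hg'
    have h3 : ContinuousOn (fun θ => Matrix.trace ((g θ).adjugate * g' θ)) F := by
      rw [continuousOn_iff_continuous_domRestrict] at h2 ⊢
      exact h2.matrix_trace
    exact continuousOn_const.mul h3
  have hfm : Set.MapsTo f F {z : ℂ | z ^ n = 1} := by
    intro θ hθ
    obtain ⟨z, hz, hz2⟩ := Good.unique (hρ θ) (h θ hθ) (h' θ hθ)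
    show f θ ^ n = 1
    rw [hf θ hθ z hz2, hz]
  obtain ⟨z, hz, hz2⟩ := hF.eqOn_const_of_mapsTo hfin.isDiscrete hfc hfm ⟨1, one_pow n⟩
  refine ⟨z, hz, fun θ hθ => ?_⟩
  obtain ⟨w, hw, hw2⟩ := Good.unique (hρ θ) (h θ hθ) (h' θ hθ)
  have h5 : f θ = z := hz2 hθ
  rw [← h5, hf θ hθ w hw2, hw2]

/-- local existence -/
theorem local_family [IsAzumaya R B] (hsep : S_sep) (huni : S_uni) {T : Type} [TopologicalSpace T]
    {n : ℕ} (hn : 0 < n) {x : T → R →+* ℂ} {ρ ρ' : T → B →+* Mat n}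
    (hρ : IsFam x Set.univ ρ) (hρ' : IsFam x Set.univ ρ') (θ₀ : T) :
    ∃ U : Set T, IsOpen U ∧ θ₀ ∈ U ∧ ∃ g : T → Mat n, ContinuousOn g U ∧
      ∀ θ ∈ U, Good (ρ θ) (ρ' θ) (g θ) := by
  have hcont : ∀ b, Continuous fun θ => ρ θ b := fun b => continuousOn_univ.1 (hρ.cont b)
  have hcont' : ∀ b, Continuous fun θ => ρ' θ b := fun b => continuousOn_univ.1 (hρ'.cont b)
  obtain ⟨g₀, hdet, hg₀⟩ := huni R B (x θ₀) n (ρ θ₀) (ρ' θ₀) hn (hρ.rep θ₀ trivial)
    (hρ'.rep θ₀ trivial)
  obtain ⟨m, u, v, huv, hsp⟩ := hsep R B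
  let G : T → Mat n := fun θ => ∑ k, ρ' θ (u k) * g₀ * ρ θ (v k)
  have hG0 : G θ₀ = g₀ := by
    show ∑ k, ρ' θ₀ (u k) * g₀ * ρ θ₀ (v k) = g₀
    simp_rw [hg₀, Matrix.mul_assoc, ← map_mul]
    rw [← Matrix.mul_sum, ← map_sum, huv, map_one, Matrix.mul_one]
  have hGc : Continuous G := by
    refine continuous_finsetSum _ fun k _ => ?_
    exact ((hcont' (u k)).matrix_mul continuous_const).matrix_mul (hcont (v k))
  have hGi : ∀ θ b, ρ' θ b * G θ = G θ * ρ θ b := by
    intro θ b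
    let L : B →+ B →+ Mat n := AddMonoidHom.mk' (fun a => AddMonoidHom.mk'
      (fun a' => ρ' θ a * g₀ * ρ θ a') (fun a' b' => by rw [map_add, mul_add]))
      (fun a b => by
        ext a' : 1
        show ρ' θ (a + b) * g₀ * ρ θ a' = ρ' θ a * g₀ * ρ θ a' + ρ' θ b * g₀ * ρ θ a'
        rw [map_add, add_mul, add_mul])
    have hL : ∀ (r : R) (a a' : B), L (r • a) a' = L a (r • a') := by
      intro r a a'
      show ρ' θ (r • a) * g₀ * ρ θ a' = ρ' θ a * g₀ * ρ θ (r • a')
      rw [Algebra.smul_def, Algebra.smul_def, map_mul, map_mul, (hρ.rep θ trivial).scalar,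
        (hρ'.rep θ trivial).scalar]
      rw [← Algebra.smul_def, ← Algebra.smul_def, smul_mul_assoc, smul_mul_assoc, mul_smul_comm]
    let M := TensorProduct.liftAddHom L hL
    have hM : ∀ a a', M (a ⊗ₜ a') = ρ' θ a * g₀ * ρ θ a' := fun a a' => rfl
    have h1 := congrArg M (hsp b)
    rw [map_sum, map_sum] at h1
    simp_rw [hM, map_mul] at h1
    show ρ' θ b * (∑ k, ρ' θ (u k) * g₀ * ρ θ (v k)) = (∑ k, ρ' θ (u k) * g₀ * ρ θ (v k)) * ρ θ b
    rw [Matrix.mul_sum, Matrix.sum_mul]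
    simpa only [Matrix.mul_assoc] using h1
  refine ⟨{θ | (G θ).det ∈ Complex.slitPlane}, Complex.isOpen_slitPlane.preimage hGc.matrix_det, ?_,
    fun θ => (((G θ).det) ^ ((n : ℂ)⁻¹))⁻¹ • G θ, ?_, ?_⟩
  · show (G θ₀).det ∈ Complex.slitPlane
    rw [hG0, hdet]
    exact Complex.one_mem_slitPlane
  · intro θ hθ
    have hθ' : (G θ).det ∈ Complex.slitPlane := hθ
    have h0 : (G θ).det ≠ 0 := Complex.slitPlane_ne_zero hθ'
    have hcp : ContinuousAt (fun θ => ((G θ).det) ^ ((n : ℂ)⁻¹)) θ :=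
      ContinuousAt.comp (g := fun z : ℂ => z ^ ((n : ℂ)⁻¹)) (f := fun θ => (G θ).det)
        (continuousAt_cpow_const hθ') hGc.matrix_det.continuousAt
    have hne : ((G θ).det) ^ ((n : ℂ)⁻¹) ≠ 0 := by
      rw [Complex.cpow_ne_zero_iff]
      exact Or.inl h0
    exact ((hcp.inv₀ hne).smul hGc.continuousAt).continuousWithinAt
  · intro θ hθ
    have h0 : (G θ).det ≠ 0 := Complex.slitPlane_ne_zero hθ
    refine ⟨?_, fun b => ?_⟩
    · rw [Matrix.det_smul, Fintype.card_fin, inv_pow, Complex.cpow_nat_inv_pow _ hn.ne',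
        inv_mul_cancel₀ h0]
    · rw [mul_smul_comm, smul_mul_assoc, hGi]

end

theorem icc_preconn {d : ℕ} (a b : Fin d → ℝ) : IsPreconnected (Set.Icc a b) :=
  (convex_Icc a b).isPreconnected

theorem s_lift (hsep : S_sep) (huni : S_uni) (hbox : S_box) : S_lift := by
  classical
  intro R B _ _ _ _ d x n hn ρ ρ' hρ hρ'
  have hrep : ∀ θ, IsRep (x θ) (ρ θ) := fun θ => hρ.rep θ trivial
  have hboxes : ∀ a b : Fin d → ℝ, a ≤ b → ∃ g : (Fin d → ℝ) → Mat n,
      ContinuousOn g (Set.Icc a b) ∧ ∀ θ ∈ Set.Icc a b, Good (ρ θ) (ρ' θ) (g θ) := by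
    refine hbox d _ ?_ ?_
    · intro θ
      obtain ⟨U, hU, hθ, g, hg, hgood⟩ := local_family hsep huni hn hρ hρ' θ
      obtain ⟨ε, hε, hball⟩ := Metric.isOpen_iff.1 hU θ hθ
      refine ⟨ε, hε, fun a b _ hab => ?_⟩
      have hsub : Set.Icc a b ⊆ U := by
        intro t ht
        apply hball
        rw [Metric.mem_ball, dist_pi_lt_iff hε]
        intro i
        rw [Real.dist_eq, abs_lt]
        have h1 := abs_lt.1 (hab i).1
        have h2 := abs_lt.1 (hab i).2
        have h3 := ht.1 i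
        have h4 := ht.2 i
        constructor <;> linarith
      exact ⟨g, hg.mono hsub, fun t ht => hgood t (hsub ht)⟩
    · rintro a b i c hab hac hcb ⟨g1, hg1, hgood1⟩ ⟨g2, hg2, hgood2⟩
      set b' := Function.update b i c with hb'
      set a' := Function.update a i c with ha'
      have hF1 : Set.Icc a' b' ⊆ Set.Icc a b' := by
        refine Set.Icc_subset_Icc_left ?_
        rw [ha']
        intro j
        by_cases hj : j = i
        · subst hj; rw [Function.update_self]; exact hac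
        · rw [Function.update_of_ne hj]
      have hF2 : Set.Icc a' b' ⊆ Set.Icc a' b := by
        refine Set.Icc_subset_Icc_right ?_
        rw [hb']
        intro j
        by_cases hj : j = i
        · subst hj; rw [Function.update_self]; exact hcb
        · rw [Function.update_of_ne hj]
      obtain ⟨z, hz, hz2⟩ := unique_family hn hrep (icc_preconn a' b') (hg2.mono hF2)
        (hg1.mono hF1) (fun θ hθ => hgood2 θ (hF2 hθ)) (fun θ hθ => hgood1 θ (hF1 hθ))
      have hQ1 : ∀ θ, θ ∈ Set.Icc a b' ↔ θ ∈ Set.Icc a b ∧ θ i ≤ c := by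
        intro θ
        constructor
        · rintro ⟨h1, h2⟩
          have h3 : θ i ≤ c := by
            have := h2 i
            rwa [hb', Function.update_self] at this
          refine ⟨⟨h1, fun j => ?_⟩, h3⟩
          by_cases hj : j = i
          · subst hj; exact h3.trans hcb
          · have := h2 j
            rwa [hb', Function.update_of_ne hj] at this
        · rintro ⟨⟨h1, h2⟩, h3⟩
          refine ⟨h1, fun j => ?_⟩
          by_cases hj : j = i
          · subst hj; rw [hb', Function.update_self]; exact h3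
          · rw [hb', Function.update_of_ne hj]; exact h2 j
      have hQ2 : ∀ θ, θ ∈ Set.Icc a' b ↔ θ ∈ Set.Icc a b ∧ c ≤ θ i := by
        intro θ
        constructor
        · rintro ⟨h1, h2⟩
          have h3 : c ≤ θ i := by
            have := h1 i
            rwa [ha', Function.update_self] at this
          refine ⟨⟨fun j => ?_, h2⟩, h3⟩
          by_cases hj : j = i
          · subst hj; exact hac.trans h3
          · have := h1 j
            rwa [ha', Function.update_of_ne hj] at this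
        · rintro ⟨⟨h1, h2⟩, h3⟩
          refine ⟨fun j => ?_, h2⟩
          by_cases hj : j = i
          · subst hj; rw [ha', Function.update_self]; exact h3
          · rw [ha', Function.update_of_ne hj]; exact h1 j
      have hQF : ∀ θ, θ ∈ Set.Icc a b → θ i = c → θ ∈ Set.Icc a' b' := by
        intro θ h1 h2
        exact ⟨((hQ2 θ).2 ⟨h1, h2.ge⟩).1, ((hQ1 θ).2 ⟨h1, h2.le⟩).2⟩
      refine ⟨fun θ => if θ i ≤ c then g1 θ else z • g2 θ, ?_, ?_⟩
      · have hunion : Set.Icc a b = Set.Icc a b' ∪ Set.Icc a' b := by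
          ext θ
          rw [Set.mem_union, hQ1, hQ2]
          constructor
          · intro h
            rcases le_total (θ i) c with h1 | h1
            · exact Or.inl ⟨h, h1⟩
            · exact Or.inr ⟨h, h1⟩
          · rintro (h | h) <;> exact h.1
        rw [hunion]
        refine ContinuousOn.union_of_isClosed ?_ ?_ isClosed_Icc isClosed_Icc
        · refine hg1.congr fun θ hθ => ?_
          exact if_pos ((hQ1 θ).1 hθ).2
        · refine (hg2.const_smul z).congr fun θ hθ => ?_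
          by_cases h1 : θ i ≤ c
          · have h2 := (hQ2 θ).1 hθ
            show (if θ i ≤ c then g1 θ else z • g2 θ) = z • g2 θ
            rw [if_pos h1]
            exact hz2 θ (hQF θ h2.1 (le_antisymm h1 h2.2))
          · exact if_neg h1
      · intro θ hθ
        show Good (ρ θ) (ρ' θ) (if θ i ≤ c then g1 θ else z • g2 θ)
        by_cases h1 : θ i ≤ c
        · rw [if_pos h1]; exact hgood1 θ ((hQ1 θ).2 ⟨hθ, h1⟩)
        · rw [if_neg h1]
          exact (hgood2 θ ((hQ2 θ).2 ⟨hθ, (not_le.1 h1).le⟩)).smul hz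
  -- large boxes
  have hbk : ∀ (k : ℕ) (θ : Fin d → ℝ), ‖θ‖ ≤ k →
      θ ∈ Set.Icc (fun _ : Fin d => -(k : ℝ)) (fun _ => (k : ℝ)) := by
    intro k θ hθ
    rw [pi_norm_le_iff_of_nonneg (Nat.cast_nonneg k)] at hθ
    exact ⟨fun i => (abs_le.1 (hθ i)).1, fun i => (abs_le.1 (hθ i)).2⟩
  have h1 : ∀ k : ℕ, ∃ g : (Fin d → ℝ) → Mat n,
      ContinuousOn g (Set.Icc (fun _ : Fin d => -(k : ℝ)) (fun _ => (k : ℝ))) ∧
      ∀ θ ∈ Set.Icc (fun _ : Fin d => -(k : ℝ)) (fun _ => (k : ℝ)), Good (ρ θ) (ρ' θ) (g θ) := by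
    intro k
    refine hboxes _ _ fun i => ?_
    have : (0 : ℝ) ≤ k := Nat.cast_nonneg k
    show -(k : ℝ) ≤ k
    linarith
  choose g hgc hgg using h1
  have hzero : ∀ k : ℕ, (0 : Fin d → ℝ) ∈
      Set.Icc (fun _ : Fin d => -(k : ℝ)) (fun _ => (k : ℝ)) := fun k =>
    hbk k 0 (by rw [norm_zero]; exact Nat.cast_nonneg k)
  have h2 : ∀ k, ∃ z : ℂ, z ^ n = 1 ∧ g 0 0 = z • g k 0 := fun k =>
    Good.unique (hrep 0) (hgg k 0 (hzero k)) (hgg 0 0 (hzero 0))
  choose z hz hz2 using h2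
  have hpc : ∀ k : ℕ, IsPreconnected (Set.Icc (fun _ : Fin d => -(k : ℝ)) (fun _ => (k : ℝ))) :=
    fun k => icc_preconn _ _
  have hne : g 0 0 ≠ 0 := by
    intro h0
    have := (hgg 0 0 (hzero 0)).1
    have hnonempty : Nonempty (Fin n) := ⟨⟨0, hn⟩⟩
    rw [h0, Matrix.det_zero] at this
    exact zero_ne_one this
  have hcompat : ∀ k l : ℕ, k ≤ l → ∀ θ : Fin d → ℝ, ‖θ‖ ≤ k → z l • g l θ = z k • g k θ := by
    intro k l hkl θ hθ
    have hsub : Set.Icc (fun _ : Fin d => -(k : ℝ)) (fun _ => (k : ℝ)) ⊆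
        Set.Icc (fun _ : Fin d => -(l : ℝ)) (fun _ => (l : ℝ)) := by
      have : (k : ℝ) ≤ l := by exact_mod_cast hkl
      refine Set.Icc_subset_Icc (fun _ => ?_) (fun _ => this)
      show -(l : ℝ) ≤ -(k : ℝ)
      linarith
    obtain ⟨w, hw, hw2⟩ := unique_family hn hrep (hpc k) ((hgc k).const_smul (z k))
      (((hgc l).mono hsub).const_smul (z l))
      (fun θ hθ => (hgg k θ hθ).smul (hz k)) (fun θ hθ => (hgg l θ (hsub hθ)).smul (hz l))
    have h3 : z l • g l 0 = w • z k • g k 0 := hw2 0 (hzero k)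
    rw [← hz2, ← hz2] at h3
    have hw1 : w = 1 := by
      have h4 : (1 - w) • g 0 0 = 0 := by
        rw [sub_smul, one_smul, ← h3, sub_self]
      rcases smul_eq_zero.1 h4 with h5 | h5
      · exact (sub_eq_zero.1 h5).symm
      · exact absurd h5 hne
    have h6 : z l • g l θ = w • z k • g k θ := hw2 θ (hbk k θ hθ)
    rw [h6, hw1, one_smul]
  let N : (Fin d → ℝ) → ℕ := fun θ => ⌈‖θ‖⌉₊
  have hN : ∀ θ (l : ℕ), ‖θ‖ ≤ l → z (N θ) • g (N θ) θ = z l • g l θ := by
    intro θ l hl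
    exact (hcompat (N θ) l (Nat.ceil_le.2 hl) θ (Nat.le_ceil _)).symm
  refine ⟨fun θ => z (N θ) • g (N θ) θ, ?_, ?_, ?_⟩
  · rw [continuous_iff_continuousAt]
    intro θ
    obtain ⟨l, hl⟩ := exists_nat_gt ‖θ‖
    have hnb : {t : Fin d → ℝ | ‖t‖ < l} ∈ 𝓝 θ :=
      (isOpen_lt continuous_norm continuous_const).mem_nhds hl
    have hca : ContinuousAt (fun t => z l • g l t) θ := by
      refine ((hgc l).const_smul (z l)).continuousAt ?_
      filter_upwards [hnb] with t ht
      exact hbk l t (le_of_lt ht)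
    refine hca.congr ?_
    filter_upwards [hnb] with t ht
    exact (hN t l (le_of_lt ht)).symm
  · intro θ
    exact ((hgg (N θ) θ (hbk _ θ (Nat.le_ceil _))).smul (hz _)).1
  · intro θ b
    exact ((hgg (N θ) θ (hbk _ θ (Nat.le_ceil _))).smul (hz _)).2 b

end Pool.Agent.W52.BM
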