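import Pool.Agent.W620.BM.Stm

/-! BM-DEG, BM-UNI (MP_be3542_nt) -/

set_option autoImplicit false

open scoped TensorProduct
open Matrix

namespace Pool.Agent.W52.BM

open Pool.Agent.W620.BM

section

variable {R B : Type} [CommRing R] [Ring B] [Algebra R B] [IsAzumaya R B]

/-- a spanning representation is an isomorphism of the fibre with the matrix algebra -/
theorem exists_iso (hcsa : S_csa) [Algebra R ℂ] {n : ℕ} (hn : 0 < n) {ρ : B →+* Mat n}
    (h : IsRep (algebraMap R ℂ) ρ) :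
    ∃ e : (ℂ ⊗[R] B) ≃ₐ[ℂ] Mat n, ∀ b, e (1 ⊗ₜ b) = ρ b := by
  obtain ⟨h1, h2, h3⟩ := hcsa R B ℂ
  let ρ' : B →ₐ[R] Mat n := { ρ with
    commutes' := fun r => (h.scalar r).trans (IsScalarTower.algebraMap_apply R ℂ (Mat n) r).symm }
  let f : (ℂ ⊗[R] B) →ₐ[ℂ] Mat n :=
    Algebra.TensorProduct.lift (Algebra.ofId ℂ (Mat n)) ρ' fun z b => Algebra.commutes z _
  have hf : ∀ b, f (1 ⊗ₜ b) = ρ b := by
    intro b
    have h4 : f ((1 : ℂ) ⊗ₜ[R] b) = Algebra.ofId ℂ (Mat n) 1 * ρ' b :=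
      Algebra.TensorProduct.lift_tmul _ _ _ _ _
    rw [h4, map_one, one_mul]
    rfl
  haveI : Nonempty (Fin n) := ⟨⟨0, hn⟩⟩
  haveI : Nontrivial (Mat n) := inferInstance
  have hinj : Function.Injective f := RingHom.injective (f : (ℂ ⊗[R] B) →+* Mat n)
  have hsurj : Function.Surjective f := by
    intro m
    have hm : m ∈ Submodule.span ℂ (Set.range ρ) := by rw [h.span]; trivial
    have hle : Submodule.span ℂ (Set.range ρ) ≤ LinearMap.range f.toLinearMap := by
      rw [Submodule.span_le]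
      rintro _ ⟨b, rfl⟩
      exact ⟨1 ⊗ₜ b, hf b⟩
    exact hle hm
  exact ⟨AlgEquiv.ofBijective f ⟨hinj, hsurj⟩, hf⟩

end

theorem s_deg (hcsa : S_csa) : S_deg := by
  intro R B _ _ _ _ x n n' ρ ρ' hn hn' h h'
  letI := x.toAlgebra
  obtain ⟨e, he⟩ := exists_iso hcsa hn (ρ := ρ) h
  obtain ⟨e', he'⟩ := exists_iso hcsa hn' (ρ := ρ') h'
  have h1 := ((e.symm.trans e').toLinearEquiv).finrank_eq
  rw [Module.finrank_matrix, Module.finrank_matrix, Module.finrank_self, Fintype.card_fin,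
    Fintype.card_fin, mul_one, mul_one] at h1
  exact Nat.mul_self_inj.1 h1

theorem s_uni (hcsa : S_csa) : S_uni := by
  intro R B _ _ _ _ x n ρ ρ' hn h h'
  letI := x.toAlgebra
  obtain ⟨e, he⟩ := exists_iso hcsa hn (ρ := ρ) h
  obtain ⟨e', he'⟩ := exists_iso hcsa hn (ρ := ρ') h'
  let α : Mat n ≃ₐ[ℂ] Mat n := e.symm.trans e'
  have hα : ∀ b, α (ρ b) = ρ' b := by
    intro b
    rw [← he b]
    show e' (e.symm (e _)) = _
    rw [e.symm_apply_apply, he']
  let t : Mat n ≃ₐ[ℂ] Module.End ℂ (Fin n → ℂ) := Matrix.toLinAlgEquiv'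
  obtain ⟨T, hT⟩ := AlgEquiv.eq_linearEquivConjAlgEquiv ((t.symm.trans α).trans t)
  let G : Mat n := t.symm T.toLinearMap
  let G' : Mat n := t.symm T.symm.toLinearMap
  have hGG : G * G' = 1 := by
    rw [← map_mul]
    have : (T.toLinearMap : Module.End ℂ (Fin n → ℂ)) * T.symm.toLinearMap = 1 := by
      ext v; simp
    rw [this, map_one]
  have hdet : G.det ≠ 0 := by
    intro h0
    have := congrArg Matrix.det hGG
    rw [Matrix.det_mul, h0, zero_mul, Matrix.det_one] at this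
    exact zero_ne_one this
  have hG : ∀ m, α m * G = G * m := by
    intro m
    apply t.injective
    rw [map_mul, map_mul]
    have h1 : t (α m) = T.conjAlgEquiv ℂ (t m) := by
      have := DFunLike.congr_fun hT (t m)
      rw [← this]
      show t (α m) = t (α (t.symm (t m)))
      rw [t.symm_apply_apply]
    have h2 : t G = T.toLinearMap := t.apply_symm_apply _
    rw [h1, h2]
    apply LinearMap.ext
    intro v
    rw [Module.End.mul_apply, Module.End.mul_apply, LinearEquiv.conjAlgEquiv_apply]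
    simp
  obtain ⟨z, hz⟩ := IsAlgClosed.exists_pow_nat_eq (G.det)⁻¹ hn
  refine ⟨z • G, ?_, ?_⟩
  · rw [Matrix.det_smul, Fintype.card_fin, hz, inv_mul_cancel₀ hdet]
  · intro b
    rw [mul_smul_comm, smul_mul_assoc, ← hα b, hG]

end Pool.Agent.W52.BM
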